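import Pool.Agent.K7.H37.UK.Stm
import Pool.Agent.K7.H37.UK.GAME
import Pool.Agent.K7.H37.UK.ANN
import Pool.Agent.K7.H55.UK.DYN
import Pool.Agent.K7.H56.UK.NBR
import Pool.Agent.K7.H56.UK.SIMP
import Pool.Agent.K7.H37.UK.LOOP
import Pool.Agent.K7.H47.UK.CYC
import Pool.Agent.K7.H26.UK.TRI
import Pool.Agent.K7.H26.UK.RND
import Pool.Agent.K7.H26.UK.RHO
import Pool.Agent.K7.H70.UK.FIB
import Pool.Agent.K7.H20.UK.LIFT
import Pool.Agent.K7.H66.UK.CH
import Pool.Agent.K7.H81.UK.GR
import Pool.Agent.K7.H99.UK.STR

/-!
# MP_fb72b7_co, Q1: the no-knot player N wins Ulam's knot game on every box

The final definitions are the first section of `Pool/Agent/K7/H37/UK/Stm.lean`.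

* `V = Fin 3 → ℤ`: lattice points. `Adj p q`: `p` and `q` are neighbours in the cubic lattice.
  `InBox d p`: `0 ≤ p i ≤ d i` for the three coordinates; `pt p` is `p` as a point of `ℝ³`.
* A position is the list of the vertices of the marked path, the growing end first.
* `Legal d path w`: with growing end `v` and the vertex `u` before it, `w` is a neighbour of `v` in
  the box with `w ≠ u`. While the game runs, the marked edges form a simple path, so among the
  edges at `v` only `v u` is marked: these are exactly the moves of the rules.
* A move to a visited vertex `w` closes the polygon `poly ((loop path w).map pt)` with the vertices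
  of the path from `v` back to `w` (and `w` is at least two steps before `v`, as `w ≠ u, v`).
* `Unknotted S`: `S` is ambient isotopic to a round circle of `ℝ³`: there is a continuous family of
  self-homeomorphisms of `ℝ³`, starting with the identity, whose end carries `S` onto a round circle.
* `NForces d true path` (N to move) and `NForces d false path` (K to move), inductively: N can force
  a win. N to move: some legal move closes an unknotted polygon, or leads to an unvisited vertex and a
  position from which N can force a win with K to move. K to move: all legal moves that close a
  polygon close an unknotted one, and all the others lead to positions from which N can force a win.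
* `NWinsKFirst d`: K marks the first edge `p q` (any edge), N the second edge `v1 v2` with
  `{v0, v1} = {p, q}`, `v2 ≠ v0` and then K is to move; N can choose the second edge so that he can
  force a win. `NWinsNFirst d`: N can choose the first edge so that he can force a win after every
  second edge marked by K.

Since `NForces` is defined inductively, it says that N has a winning strategy (as the box is finite,
the game ends anyway).

## Idea of the proof

Let `lev v = v 0 + v 1 + v 2`. N returns to the level before the move of K whenever he can: K moves
from `u` (level `s`) to `v` (level `s ± 1`) and N to `w ≠ u` with level `s`. The part of the lattice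
between the levels `s - 1` and `s + 1` projects injectively along `(1,1,1)`. N has no such answer only
if all but one of the coordinates of `v` are minimal (then he goes on to the level `s + 2`) or maximal
(he goes to `s - 2`); the single vertex of this kind on a level can be used only once. So the home
level moves in one direction, then in the other one, and then perhaps back, at most to the first home.
Each closed polygon then has a height function that is compatible with the order on the lines
parallel to `(1,1,1)` and has one maximum and one minimum on the polygon. A change of the heights on
the fibres moves the polygon to one with two points on each level between its lowest and its highest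
point, and such a curve is unknotted.
-/

set_option autoImplicit false

namespace Pool.Agent.Results.MP_fb72b7_co.NWinsEveryBox

open Pool.Agent.K7.H37.UK

/-- Q1 of MP_fb72b7_co: on every box `d 0 × d 1 × d 2` with sides `≥ 1` (cubical or not), the
no-knot player N wins the knot game, whether K or N marks the first edge. -/
theorem result (d : Fin 3 → ℕ) (hd : ∀ i, 1 ≤ d i) : NWinsKFirst d ∧ NWinsNFirst d := by
  have hcyc : StCyc :=
    Pool.Agent.K7.H47.UK.CYC Pool.Agent.K7.H26.UK.tri Pool.Agent.K7.H26.UK.rnd
      Pool.Agent.K7.H70.UK.fib Pool.Agent.K7.H20.UK.LIFT Pool.Agent.K7.H56.UK.SIMP
      Pool.Agent.K7.H66.UK.ch Pool.Agent.K7.H81.UK.stGr Pool.Agent.K7.H99.UK.str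
      Pool.Agent.K7.H26.UK.Rho.rho
  exact Pool.Agent.K7.H37.UK.GAME
    (Pool.Agent.K7.H55.UK.DYN Pool.Agent.K7.H37.UK.AnnJ.ANN Pool.Agent.K7.H56.UK.NBR
      Pool.Agent.K7.H56.UK.UNIQ)
    (Pool.Agent.K7.H37.UK.LoopJ.LOOP hcyc) d hd

end Pool.Agent.Results.MP_fb72b7_co.NWinsEveryBox
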